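import Mathlib

/-!
Word condition: for every finite set `D` of coefficients there is an element `g` such that no
reduced word in `g` with coefficients in `D` is trivial.
-/

namespace Pool.Agent.Helper78.PP

/-- No non-empty reduced product `d₁ g^ε₁ d₂ g^ε₂ ⋯ d_k g^ε_k` with `ε_j = ±1` and `d_j ∈ D` is
trivial; reduced means: if `d_{j+1} = 1` then `ε_j = ε_{j+1}`. -/
def FreeFor {G : Type*} [Group G] (D : Finset G) (g : G) : Prop :=
  ∀ l : List (Bool × G), l ≠ [] → (∀ p ∈ l, p.2 ∈ D) →
    l.IsChain (fun p q => q.2 = 1 → p.1 = q.1) →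
    (l.map fun p => p.2 * (if p.1 then g else g⁻¹)).prod ≠ 1

/-- For every finite set `D` of coefficients there is `g` such that no reduced word in `g` with
coefficients in `D` is trivial. -/
def HasFree (G : Type*) [Group G] : Prop := ∀ D : Finset G, ∃ g : G, FreeFor D g

end Pool.Agent.Helper78.PP
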