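import Mathlib
import Pool.Agent.Helper78.PP.Defs
import Pool.Agent.Helper78.PP.Safe

/-!
The push recursion along a list of lower ends.
-/

namespace Pool.Agent.Helper78.PP

open Finset

section cnt

variable {α β : Type*}

/-- The number of pairs of each colour in a finite system of forbidden (position, colour)
pairs. -/
def cnt (Y : Finset (α × Fin 4)) : Fin 4 → ℕ :=
  fun j => (Y.filter fun p => p.2 = j).card

lemma cnt_mono {Y Z : Finset (α × Fin 4)} (h : Y ⊆ Z) : cnt Y ≤ cnt Z := fun _ =>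
  card_le_card (filter_subset_filter _ h)

lemma cnt_empty : cnt (∅ : Finset (α × Fin 4)) = 0 := by
  funext j; simp [cnt]

lemma cnt_union_le [DecidableEq (α × Fin 4)] (Y Z : Finset (α × Fin 4)) : cnt (Y ∪ Z) ≤ cnt Y + cnt Z := by
  intro j
  simp only [cnt, Pi.add_apply, filter_union]
  exact card_union_le _ _

lemma cnt_union_disj [DecidableEq (α × Fin 4)] {Y Z : Finset (α × Fin 4)} (h : Disjoint Y Z) :
    cnt (Y ∪ Z) = cnt Y + cnt Z := by
  funext j
  simp only [cnt, Pi.add_apply, filter_union]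
  exact card_union_of_disjoint (disjoint_filter_filter h)

lemma cnt_biUnion_le [DecidableEq (α × Fin 4)] (B : Finset β) (f : β → Finset (α × Fin 4)) :
    cnt (B.biUnion f) ≤ ∑ b ∈ B, cnt (f b) := by
  classical
  induction B using Finset.induction_on with
  | empty => intro j; simp [cnt]
  | insert b B hb ih =>
    rw [biUnion_insert, sum_insert hb]
    exact (cnt_union_le _ _).trans (add_le_add le_rfl ih)

lemma cnt_biUnion_disj [DecidableEq (α × Fin 4)] (B : Finset β) (f : β → Finset (α × Fin 4))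
    (h : ∀ b ∈ B, ∀ b' ∈ B, b ≠ b' → Disjoint (f b) (f b')) :
    cnt (B.biUnion f) = ∑ b ∈ B, cnt (f b) := by
  classical
  induction B using Finset.induction_on with
  | empty => funext j; simp [cnt]
  | insert b B hb ih =>
    rw [biUnion_insert, sum_insert hb, cnt_union_disj, ih]
    · intro x hx y hy
      exact h x (mem_insert_of_mem hx) y (mem_insert_of_mem hy)
    · rw [disjoint_biUnion_right]
      intro x hx
      exact h b (mem_insert_self _ _) x (mem_insert_of_mem hx) (fun h' => hb (h' ▸ hx))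

lemma card_eq_sum_cnt (Y : Finset (α × Fin 4)) : Y.card = ∑ j, cnt Y j := by
  classical
  simp only [cnt]
  exact card_eq_sum_card_fiberwise (fun p _ => mem_univ _)

lemma cnt_mono_color [DecidableEq (α × Fin 4)] (s : Finset α) (i : Fin 4) :
    cnt (s.image fun x => (x, i)) ≤ s.card • e i := by
  intro j
  simp only [cnt, Pi.smul_apply, smul_eq_mul]
  by_cases hj : i = j
  · subst hj
    simp only [e, Pi.single_eq_same, mul_one]
    exact (card_filter_le _ _).trans card_image_le
  · have : (s.image fun x => (x, i)).filter (fun p => p.2 = j) = ∅ := by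
      apply filter_false_of_mem
      intro p hp
      obtain ⟨x, _, rfl⟩ := mem_image.1 hp
      exact hj
    rw [this]
    simp

lemma smul_e_mono {m n : ℕ} (h : m ≤ n) (i : Fin 4) : m • e i ≤ n • e i := fun j => by
  simp only [Pi.smul_apply, smul_eq_mul]
  exact Nat.mul_le_mul_right _ h

lemma cnt_singleton (x : α) (i : Fin 4) : cnt {(x, i)} ≤ e i := by
  classical
  have := cnt_mono_color {x} i
  simpa using this

lemma replace_sum {B : Finset β} {a b : β → Fin 4 → ℕ}
    (h : ∀ j ∈ B, ∀ u, Safe (u + a j) → Safe (u + b j)) :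
    ∀ u, Safe (u + ∑ j ∈ B, a j) → Safe (u + ∑ j ∈ B, b j) := by
  classical
  induction B using Finset.induction_on with
  | empty => intro u hu; simpa using hu
  | insert x B hx ih =>
    intro u hu
    rw [sum_insert hx] at hu ⊢
    have h1 : Safe ((u + ∑ j ∈ B, a j) + a x) := by
      convert hu using 1; abel
    have h2 := h x (mem_insert_self _ _) _ h1
    have h3 : Safe ((u + b x) + ∑ j ∈ B, a j) := by
      convert h2 using 1; abel
    have h4 := ih (fun j hj => h j (mem_insert_of_mem hj)) _ h3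
    convert h4 using 1; abel

end cnt

section level

variable {G : Type*} [Group G] [DecidableEq G]

/-- the other end of the link with lower end `v l` -/
def st (g : G) (v : ℕ → G) (ty : ℕ → Bool) (l : ℕ) : G := if ty l then g⁻¹ * v l else g * v l

/-- scales -/
structure Scales (N R M : Finset G) : Prop where
  one_N : 1 ∈ N
  inv_N : ∀ x ∈ N, x⁻¹ ∈ N
  one_R : 1 ∈ R
  inv_R : ∀ x ∈ R, x⁻¹ ∈ R
  mul4 : ∀ a ∈ N, ∀ b ∈ N, ∀ c ∈ N, ∀ d ∈ N, a * b * c * d ∈ R
  mul3 : ∀ a ∈ R, ∀ b ∈ R, ∀ c ∈ R, a * b * c ∈ M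

/-- a list of lower ends -/
structure Ends (M : Finset G) (g : G) (m : ℕ) (v : ℕ → G) (ty : ℕ → Bool) : Prop where
  sep : ∀ p l, p < l → l < m → v l * (v p)⁻¹ ∉ M
  sepS : ∀ p l, p ≤ l → l < m → st g v ty l * (v p)⁻¹ ∉ M

/-- cost of taking the link -/
def xs (i : Fin 4) (ty : ℕ → Bool) (l : ℕ) : Fin 4 → ℕ := if ty l then 4 • e i else e i
/-- cost of pushing the link -/
def xp (i : Fin 4) (ty : ℕ → Bool) (l : ℕ) : Fin 4 → ℕ := if ty l then e i else 4 • e i

lemma e_le (i : Fin 4) : e i ≤ 4 • e i := by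
  have := smul_e_mono (show 1 ≤ 4 by norm_num) i
  simpa using this

lemma xs_le (i : Fin 4) (ty : ℕ → Bool) (l : ℕ) : xs i ty l ≤ 4 • e i := by
  unfold xs; split_ifs
  · exact le_rfl
  · exact e_le i

lemma xp_le (i : Fin 4) (ty : ℕ → Bool) (l : ℕ) : xp i ty l ≤ 4 • e i := by
  unfold xp; split_ifs
  · exact e_le i
  · exact le_rfl

lemma closure_x {i : Fin 4} {ty : ℕ → Bool} {l : ℕ} {u w : Fin 4 → ℕ} (h : Safe (u + w)) :
    Safe (w + xs i ty l) ∨ Safe (u + xp i ty l) := by
  unfold xs xp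
  split_ifs
  · exact (key h i).symm
  · rw [add_comm] at h
    exact key h i

variable (P : Finset (G × Fin 4)) (R : Finset G) (g : G) (i : Fin 4) (v : ℕ → G) (ty : ℕ → Bool)

open Classical in
/-- the points of `P` near `z` -/
noncomputable def nearP (z : G) : Finset (G × Fin 4) := P.filter (fun q => q.1 * z⁻¹ ∈ R)

open Classical in
/-- the recursion: which links are pushed -/
noncomputable def push : ℕ → Prop
  | l => ¬ Safe (cnt (nearP P R (v l)) +
      (∑ j : Fin l, if push j ∧ st g v ty j * (v l)⁻¹ ∈ R then xp i ty j else 0) + xs i ty l)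
  termination_by l => l
  decreasing_by exact j.2

/-- the links pushed towards `z` -/
noncomputable def Ch (m : ℕ) (z : G) : Finset ℕ := by
  classical
  exact (range m).filter (fun j => push P R g i v ty j ∧ st g v ty j * z⁻¹ ∈ R)

variable {P R g i v ty}

lemma mem_Ch {m : ℕ} {z : G} {j : ℕ} :
    j ∈ Ch P R g i v ty m z ↔ j < m ∧ push P R g i v ty j ∧ st g v ty j * z⁻¹ ∈ R := by
  classical
  unfold Ch
  simp

lemma mem_nearP {z : G} {q : G × Fin 4} : q ∈ nearP P R z ↔ q ∈ P ∧ q.1 * z⁻¹ ∈ R := by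
  classical
  unfold nearP
  simp

section

variable {N M : Finset G} (hS : Scales N R M) {m : ℕ} (hE : Ends M g m v ty)

include hS

set_option linter.unusedSectionVars false

lemma Scales.R_sub_M {x : G} (hx : x ∈ R) : x ∈ M := by
  have := hS.mul3 x hx 1 hS.one_R 1 hS.one_R
  simpa using this

lemma Scales.R2_sub_M {x y : G} (hx : x ∈ R) (hy : y ∈ R) : x * y ∈ M := by
  have := hS.mul3 x hx y hy 1 hS.one_R
  simpa using this

include hE

lemma Ch_lt {l j : ℕ} (hj : j ∈ Ch P R g i v ty m (v l)) : j < l := by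
  rw [mem_Ch] at hj
  by_contra hlt
  push Not at hlt
  exact hE.sepS l j hlt hj.1 (hS.R_sub_M hj.2.2)

lemma push_iff {l : ℕ} (hl : l < m) : push P R g i v ty l ↔
    ¬ Safe (cnt (nearP P R (v l)) + (∑ j ∈ Ch P R g i v ty m (v l), xp i ty j) + xs i ty l) := by
  classical
  conv_lhs => rw [push]
  have h1 : (∑ j : Fin l, if push P R g i v ty j ∧ st g v ty j * (v l)⁻¹ ∈ R
      then xp i ty j else 0) = ∑ j ∈ Ch P R g i v ty m (v l), xp i ty j := by
    rw [Fin.sum_univ_eq_sum_range (fun j => if push P R g i v ty j ∧ st g v ty j * (v l)⁻¹ ∈ R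
      then xp i ty j else 0) l, ← sum_filter]
    congr 1
    ext j
    rw [mem_filter, mem_range, mem_Ch]
    constructor
    · rintro ⟨h1, h2⟩; exact ⟨h1.trans hl, h2⟩
    · intro h
      exact ⟨Ch_lt hS hE (mem_Ch.2 h), h.2⟩
  rw [h1]

/-- parent relation -/
def Par (P : Finset (G × Fin 4)) (R : Finset G) (g : G) (i : Fin 4) (v : ℕ → G) (ty : ℕ → Bool)
    (m : ℕ) (j p : ℕ) : Prop := j < m ∧ p < m ∧ push P R g i v ty j ∧ st g v ty j * (v p)⁻¹ ∈ R

open Classical in
/-- the points of `P` in the subtree of `l` -/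
noncomputable def Dd (P : Finset (G × Fin 4)) (R : Finset G) (g : G) (i : Fin 4) (v : ℕ → G)
    (ty : ℕ → Bool) (m : ℕ) (l : ℕ) : Finset (G × Fin 4) :=
  P.filter (fun q => ∃ j, Relation.ReflTransGen (Par P R g i v ty m) j l ∧ q.1 * (v j)⁻¹ ∈ R)

omit hS hE in
lemma mem_Dd {l : ℕ} {q : G × Fin 4} : q ∈ Dd P R g i v ty m l ↔ q ∈ P ∧
    ∃ j, Relation.ReflTransGen (Par P R g i v ty m) j l ∧ q.1 * (v j)⁻¹ ∈ R := by
  classical
  unfold Dd
  simp

lemma par_lt {j p : ℕ} (h : Par P R g i v ty m j p) : j < p :=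
  Ch_lt hS hE (mem_Ch.2 ⟨h.1, h.2.2⟩)

lemma desc_le {j l : ℕ} (h : Relation.ReflTransGen (Par P R g i v ty m) j l) : j ≤ l := by
  induction h with
  | refl => exact le_rfl
  | tail _ h ih => exact ih.trans (par_lt hS hE h).le

/-- lower ends are separated -/
lemma ends_eq {p p' : ℕ} (hp : p < m) (hp' : p' < m) {a b : G} (ha : a ∈ R) (hb : b ∈ R)
    (h : v p * (v p')⁻¹ = a * b) : p = p' := by
  rcases lt_trichotomy p p' with h1 | h1 | h1
  · exfalso
    apply hE.sep p p' h1 hp'
    have : v p' * (v p)⁻¹ = b⁻¹ * a⁻¹ := by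
      rw [← mul_inv_rev, ← h]; group
    rw [this]
    exact hS.R2_sub_M (hS.inv_R _ hb) (hS.inv_R _ ha)
  · exact h1
  · exfalso
    apply hE.sep p' p h1 hp
    rw [h]
    exact hS.R2_sub_M ha hb

lemma par_unique : Relator.RightUnique (Par P R g i v ty m) := by
  intro j p p' h h'
  refine ends_eq hS hE h.2.1 h'.2.1 (hS.inv_R _ h.2.2.2) h'.2.2.2 ?_
  group

/-- no descendant of `l` (or `l` itself) is near the other end of the link of `l` -/
lemma st_far {j l : ℕ} (hl : l < m) (h : Relation.ReflTransGen (Par P R g i v ty m) j l) {a b c : G}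
    (ha : a ∈ R) (hb : b ∈ R) (hc : c ∈ R) (hh : st g v ty l * (v j)⁻¹ = a * b * c) : False := by
  apply hE.sepS j l (desc_le hS hE h) hl
  rw [hh]
  exact hS.mul3 a ha b hb c hc

lemma Dd_disj_aux {z : G} {l l' : ℕ} (hl : l ∈ Ch P R g i v ty m z)
    (hl' : l' ∈ Ch P R g i v ty m z) (hne : l ≠ l')
    (h : Relation.ReflTransGen (Par P R g i v ty m) l l') : False := by
  rw [mem_Ch] at hl hl'
  rcases h.cases_head with h | ⟨p, h1, h2⟩
  · exact hne h
  · refine st_far hS hE hl'.1 h2 hl'.2.2 (hS.inv_R _ hl.2.2) h1.2.2.2 ?_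
    group

lemma Dd_disj {z : G} {l l' : ℕ} (hl : l ∈ Ch P R g i v ty m z)
    (hl' : l' ∈ Ch P R g i v ty m z) (hne : l ≠ l') :
    Disjoint (Dd P R g i v ty m l) (Dd P R g i v ty m l') := by
  rw [disjoint_left]
  intro q hq hq'
  rw [mem_Dd] at hq hq'
  obtain ⟨_, j, hj, h1⟩ := hq
  obtain ⟨_, j', hj', h1'⟩ := hq'
  have hlm := (mem_Ch.1 hl).1
  have hlm' := (mem_Ch.1 hl').1
  have : j = j' := by
    refine ends_eq hS hE ((desc_le hS hE hj).trans_lt hlm) ((desc_le hS hE hj').trans_lt hlm')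
      (hS.inv_R _ h1) h1' ?_
    group
  subst this
  rcases Relation.ReflTransGen.total_of_right_unique (par_unique hS hE) hj hj' with h | h
  · exact Dd_disj_aux hS hE hl hl' hne h
  · exact Dd_disj_aux hS hE hl' hl hne.symm h

lemma nearP_disj {z : G} {l : ℕ} (hl : l ∈ Ch P R g i v ty m z) :
    Disjoint (nearP P R z) (Dd P R g i v ty m l) := by
  rw [disjoint_left]
  intro q hq hq'
  rw [mem_nearP] at hq
  rw [mem_Dd] at hq'
  obtain ⟨_, j, hj, h1⟩ := hq'
  have hlm := mem_Ch.1 hl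
  refine st_far hS hE hlm.1 hj hlm.2.2 (hS.inv_R _ hq.2) h1 ?_
  group

lemma Dd_eq {l : ℕ} (hl : l < m) : Dd P R g i v ty m l =
    nearP P R (v l) ∪ (Ch P R g i v ty m (v l)).biUnion (Dd P R g i v ty m) := by
  classical
  ext q
  rw [mem_union, mem_biUnion, mem_Dd, mem_nearP]
  constructor
  · rintro ⟨hq, j, hj, h1⟩
    rcases hj.cases_tail with h | ⟨p, h2, h3⟩
    · subst h; exact Or.inl ⟨hq, h1⟩
    · exact Or.inr ⟨p, mem_Ch.2 ⟨h3.1, h3.2.2⟩, mem_Dd.2 ⟨hq, j, h2, h1⟩⟩
  · rintro (⟨hq, h1⟩ | ⟨p, hp, hq⟩)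
    · exact ⟨hq, l, Relation.ReflTransGen.refl, h1⟩
    · rw [mem_Dd] at hq
      obtain ⟨hq, j, hj, h1⟩ := hq
      rw [mem_Ch] at hp
      exact ⟨hq, j, hj.tail ⟨hp.1, hl, hp.2⟩, h1⟩

/-- the union of the points near `z` and below `z` -/
lemma cnt_all (z : G) : cnt (nearP P R z ∪ (Ch P R g i v ty m z).biUnion (Dd P R g i v ty m)) =
    cnt (nearP P R z) + ∑ j ∈ Ch P R g i v ty m z, cnt (Dd P R g i v ty m j) := by
  classical
  rw [cnt_union_disj, cnt_biUnion_disj]
  · intro b hb b' hb' hne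
    exact Dd_disj hS hE hb hb' hne
  · rw [disjoint_biUnion_right]
    intro l hl
    exact nearP_disj hS hE hl

lemma cnt_Dd {l : ℕ} (hl : l < m) : cnt (Dd P R g i v ty m l) =
    cnt (nearP P R (v l)) + ∑ j ∈ Ch P R g i v ty m (v l), cnt (Dd P R g i v ty m j) := by
  rw [Dd_eq hS hE hl, cnt_all hS hE]

lemma claimB : ∀ l, l < m → push P R g i v ty l → ∀ u, Safe (u + cnt (Dd P R g i v ty m l)) →
    Safe (u + xp i ty l) := by
  intro l
  induction l using Nat.strong_induction_on with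
  | _ l ih =>
    intro hl hp u hu
    rw [cnt_Dd hS hE hl, ← add_assoc] at hu
    have h1 := replace_sum (B := Ch P R g i v ty m (v l))
      (a := fun j => cnt (Dd P R g i v ty m j)) (b := fun j => xp i ty j)
      (fun j hj u hu => ih j (Ch_lt hS hE hj) (mem_Ch.1 hj).1 (mem_Ch.1 hj).2.1 u hu) _ hu
    rw [add_assoc] at h1
    rcases closure_x (i := i) (ty := ty) (l := l) h1 with h2 | h2
    · exact absurd h2 ((push_iff hS hE hl).1 hp)
    · exact h2

lemma claimA (z : G) {u : Fin 4 → ℕ} (hu : Safe (u + cnt (nearP P R z ∪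
      (Ch P R g i v ty m z).biUnion (Dd P R g i v ty m)))) :
    Safe (u + (cnt (nearP P R z) + ∑ j ∈ Ch P R g i v ty m z, xp i ty j)) := by
  rw [cnt_all hS hE, ← add_assoc] at hu
  rw [← add_assoc]
  exact replace_sum (B := Ch P R g i v ty m z)
      (a := fun j => cnt (Dd P R g i v ty m j)) (b := fun j => xp i ty j)
      (fun j hj u hu => claimB hS hE j (mem_Ch.1 hj).1 (mem_Ch.1 hj).2.1 u hu) _ hu

end

end level

section ball

open Pointwise

variable {G : Type*} [Group G] [DecidableEq G]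

/-- the balls -/
def Bs (R : Finset G) (g : G) : ℕ → Finset G
  | 0 => R
  | k + 1 => Bs R g k ∪ Bs R g k * (({g, g⁻¹} : Finset G) * R)

lemma Bs_mono (R : Finset G) (g : G) {k k' : ℕ} (h : k ≤ k') : Bs R g k ⊆ Bs R g k' := by
  induction h with
  | refl => exact subset_rfl
  | step _ ih => exact ih.trans subset_union_left

lemma Bs_step {R : Finset G} {g : G} {v : ℕ → G} {ty : ℕ → Bool} {q z : G} {j k : ℕ}
    (hq : q * (v j)⁻¹ ∈ Bs R g k) (hst : st g v ty j * z⁻¹ ∈ R) : q * z⁻¹ ∈ Bs R g (k + 1) := by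
  unfold Bs
  apply mem_union_right
  have h1 : ∃ x ∈ ({g, g⁻¹} : Finset G), v j = x * st g v ty j := by
    unfold st
    split_ifs
    · exact ⟨g, by simp, by group⟩
    · exact ⟨g⁻¹, by simp, by group⟩
  obtain ⟨x, hx, hv⟩ := h1
  have h2 : q * z⁻¹ = (q * (v j)⁻¹) * (x * (st g v ty j * z⁻¹)) := by
    rw [← mul_assoc x, ← hv]; group
  rw [h2]
  exact mul_mem_mul hq (mul_mem_mul hx hst)

variable {P : Finset (G × Fin 4)} {N R M : Finset G} {g : G} {i : Fin 4} {v : ℕ → G}
  {ty : ℕ → Bool} (hS : Scales N R M) {m : ℕ} (hE : Ends M g m v ty)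
  (hP : ∀ z, Safe (cnt (P.filter (fun q => q.1 * z⁻¹ ∈ Bs R g 13))))

include hS hE hP

lemma claimC : ∀ l, l < m → push P R g i v ty l → 1 ≤ (Dd P R g i v ty m l).card ∧
    (Dd P R g i v ty m l).card ≤ 12 ∧
    ∀ q ∈ Dd P R g i v ty m l, q.1 * (v l)⁻¹ ∈ Bs R g (Dd P R g i v ty m l).card := by
  intro l
  induction l using Nat.strong_induction_on with
  | _ l ih =>
    intro hl hp
    have ihc : ∀ j ∈ Ch P R g i v ty m (v l), 1 ≤ (Dd P R g i v ty m j).card ∧
        (Dd P R g i v ty m j).card ≤ 12 ∧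
        ∀ q ∈ Dd P R g i v ty m j, q.1 * (v j)⁻¹ ∈ Bs R g (Dd P R g i v ty m j).card :=
      fun j hj => ih j (Ch_lt hS hE hj) (mem_Ch.1 hj).1 (mem_Ch.1 hj).2.1
    have hcard : (Dd P R g i v ty m l).card = (nearP P R (v l)).card +
        ∑ j ∈ Ch P R g i v ty m (v l), (Dd P R g i v ty m j).card := by
      rw [Dd_eq hS hE hl, card_union_of_disjoint, card_biUnion]
      · intro b hb b' hb' hne
        exact Dd_disj hS hE hb hb' hne
      · rw [disjoint_biUnion_right]
        intro j hj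
        exact nearP_disj hS hE hj
    have h12 : (Dd P R g i v ty m l).card ≤ 12 := by
      rw [card_eq_sum_cnt]
      refine le_trans (sum_le_sum fun j _ => ?_) (hP (v l)).sum_le
      apply cnt_mono
      intro q hq
      rw [mem_filter]
      refine ⟨(mem_Dd.1 hq).1, ?_⟩
      rw [Dd_eq hS hE hl, mem_union, mem_biUnion] at hq
      rcases hq with hq | ⟨j, hj, hq⟩
      · exact Bs_mono R g (show 0 ≤ 13 by norm_num) (mem_nearP.1 hq).2
      · exact Bs_mono R g (by have := (ihc j hj).2.1; omega)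
          (Bs_step ((ihc j hj).2.2 q hq) (mem_Ch.1 hj).2.2)
    have hnp := (push_iff hS hE hl).1 hp
    have h1 : 1 ≤ (Dd P R g i v ty m l).card := by
      by_contra hlt
      rw [hcard] at hlt
      have h2 : (nearP P R (v l)).card = 0 := by omega
      have h3 : ∑ j ∈ Ch P R g i v ty m (v l), (Dd P R g i v ty m j).card = 0 := by omega
      have h4 : Ch P R g i v ty m (v l) = ∅ := by
        rw [eq_empty_iff_forall_notMem]
        intro j hj
        have h5 := (ihc j hj).1
        rw [sum_eq_zero_iff] at h3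
        have := h3 j hj
        omega
      apply hnp
      rw [card_eq_zero] at h2
      rw [h2, h4, cnt_empty, sum_empty, zero_add, zero_add]
      exact (safe_four i).mono (xs_le i ty l)
    have hstep : ∀ j ∈ Ch P R g i v ty m (v l),
        (Dd P R g i v ty m j).card + 1 ≤ (Dd P R g i v ty m l).card := by
      intro j hj
      by_contra hlt
      rw [hcard, ← add_sum_erase _ _ hj] at hlt
      have h2 : (nearP P R (v l)).card = 0 := by omega
      have h3 : ∑ x ∈ (Ch P R g i v ty m (v l)).erase j, (Dd P R g i v ty m x).card = 0 := by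
        omega
      have h4 : (Ch P R g i v ty m (v l)).erase j = ∅ := by
        rw [eq_empty_iff_forall_notMem]
        intro x hx
        have h5 := (ihc x (mem_of_mem_erase hx)).1
        rw [sum_eq_zero_iff] at h3
        have := h3 x hx
        omega
      apply hnp
      rw [card_eq_zero] at h2
      rw [h2, ← add_sum_erase _ _ hj, h4, cnt_empty, sum_empty, zero_add, add_zero]
      exact (safe_eight i).mono (add_le_add (xp_le i ty j) (xs_le i ty l))
    refine ⟨h1, h12, ?_⟩
    intro q hq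
    rw [Dd_eq hS hE hl, mem_union, mem_biUnion] at hq
    rcases hq with hq | ⟨j, hj, hq⟩
    · exact Bs_mono R g (Nat.zero_le _) (mem_nearP.1 hq).2
    · exact Bs_mono R g (hstep j hj) (Bs_step ((ihc j hj).2.2 q hq) (mem_Ch.1 hj).2.2)

lemma safe_w (z : G) : Safe (cnt (nearP P R z) + ∑ j ∈ Ch P R g i v ty m z, xp i ty j) := by
  have h := claimA hS hE (P := P) (i := i) z (u := 0) (by
    rw [zero_add]
    refine (hP z).mono (cnt_mono ?_)
    intro q hq
    rw [mem_filter]
    rw [mem_union, mem_biUnion] at hq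
    rcases hq with hq | ⟨j, hj, hq⟩
    · exact ⟨(mem_nearP.1 hq).1, Bs_mono R g (show 0 ≤ 13 by norm_num) (mem_nearP.1 hq).2⟩
    · have h1 := claimC hS hE hP (i := i) j (mem_Ch.1 hj).1 (mem_Ch.1 hj).2.1
      exact ⟨(mem_Dd.1 hq).1, Bs_mono R g (by have := h1.2.1; omega)
          (Bs_step (h1.2.2 q hq) (mem_Ch.1 hj).2.2)⟩)
  rwa [zero_add] at h

theorem level_ends {F : Finset G} (hF : F.card ≤ 4) (hFN : ∀ f ∈ F, f ∈ N) :
    ∃ P' : Finset (G × Fin 4), P ⊆ P' ∧
      (∀ z, Safe (cnt (P'.filter (fun q => q.1 * z⁻¹ ∈ N)))) ∧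
      ∀ l, l < m → ((if ty l then g⁻¹ * v l else v l, i) ∈ P' ∨
        ∀ f ∈ F, (f * (g * (if ty l then g⁻¹ * v l else v l)), i) ∈ P') := by
  classical
  let tk : ℕ → Finset (G × Fin 4) := fun l =>
    if ty l then (F.image (fun f => f * v l)).image (fun x => (x, i)) else {(v l, i)}
  let ps : ℕ → Finset (G × Fin 4) := fun l =>
    if ty l then {(st g v ty l, i)} else (F.image (fun f => f * st g v ty l)).image (fun x => (x, i))
  have htk : ∀ l, cnt (tk l) ≤ xs i ty l := by
    intro l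
    simp only [tk, xs]
    split_ifs
    · exact (cnt_mono_color _ i).trans (smul_e_mono (card_image_le.trans hF) i)
    · exact cnt_singleton _ _
  have hps : ∀ l, cnt (ps l) ≤ xp i ty l := by
    intro l
    simp only [ps, xp]
    split_ifs
    · exact cnt_singleton _ _
    · exact (cnt_mono_color _ i).trans (smul_e_mono (card_image_le.trans hF) i)
  have htk2 : ∀ l, ∀ q ∈ tk l, ∃ f ∈ N, q.1 = f * v l := by
    intro l q hq
    simp only [tk] at hq
    split_ifs at hq
    · simp only [mem_image] at hq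
      obtain ⟨x, ⟨f, hf, rfl⟩, rfl⟩ := hq
      exact ⟨f, hFN f hf, rfl⟩
    · rw [mem_singleton] at hq
      exact ⟨1, hS.one_N, by rw [hq, one_mul]⟩
  have hps2 : ∀ l, ∀ q ∈ ps l, ∃ f ∈ N, q.1 = f * st g v ty l := by
    intro l q hq
    simp only [ps] at hq
    split_ifs at hq
    · rw [mem_singleton] at hq
      exact ⟨1, hS.one_N, by rw [hq, one_mul]⟩
    · simp only [mem_image] at hq
      obtain ⟨x, ⟨f, hf, rfl⟩, rfl⟩ := hq
      exact ⟨f, hFN f hf, rfl⟩
  let A := (range m).filter (fun l => push P R g i v ty l)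
  let B := (range m).filter (fun l => ¬ push P R g i v ty l)
  refine ⟨P ∪ A.biUnion ps ∪ B.biUnion tk, ?_, ?_, ?_⟩
  · exact subset_union_left.trans subset_union_left
  · intro z
    let A' := A.filter (fun l => ∃ a ∈ N, ∃ b ∈ N, st g v ty l * z⁻¹ = a * b)
    let B' := B.filter (fun l => ∃ a ∈ N, ∃ b ∈ N, v l * z⁻¹ = a * b)
    have hsub : (P ∪ A.biUnion ps ∪ B.biUnion tk).filter (fun q => q.1 * z⁻¹ ∈ N) ⊆
        P.filter (fun q => q.1 * z⁻¹ ∈ N) ∪ A'.biUnion ps ∪ B'.biUnion tk := by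
      intro q hq
      rw [mem_filter] at hq
      obtain ⟨hq, hz⟩ := hq
      rw [mem_union, mem_union, mem_biUnion, mem_biUnion] at hq
      rcases hq with (hq | ⟨l, hl, hq⟩) | ⟨l, hl, hq⟩
      · exact mem_union_left _ (mem_union_left _ (mem_filter.2 ⟨hq, hz⟩))
      · apply mem_union_left
        apply mem_union_right
        rw [mem_biUnion]
        obtain ⟨f, hf, he⟩ := hps2 l q hq
        refine ⟨l, mem_filter.2 ⟨hl, f⁻¹, hS.inv_N f hf, q.1 * z⁻¹, hz, ?_⟩, hq⟩
        rw [he]; group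
      · apply mem_union_right
        rw [mem_biUnion]
        obtain ⟨f, hf, he⟩ := htk2 l q hq
        refine ⟨l, mem_filter.2 ⟨hl, f⁻¹, hS.inv_N f hf, q.1 * z⁻¹, hz, ?_⟩, hq⟩
        rw [he]; group
    have hcnt : cnt ((P ∪ A.biUnion ps ∪ B.biUnion tk).filter (fun q => q.1 * z⁻¹ ∈ N)) ≤
        cnt (P.filter (fun q => q.1 * z⁻¹ ∈ N)) + ∑ j ∈ A', xp i ty j + ∑ j ∈ B', xs i ty j := by
      refine (cnt_mono hsub).trans ((cnt_union_le _ _).trans (add_le_add ((cnt_union_le _ _).trans
        (add_le_add le_rfl ?_)) ?_))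
      · exact (cnt_biUnion_le _ _).trans (sum_le_sum fun j _ => hps j)
      · exact (cnt_biUnion_le _ _).trans (sum_le_sum fun j _ => htk j)
    refine Safe.mono ?_ hcnt
    have hA' : ∀ z' : G, ∀ c ∈ N, ∀ d ∈ N, z * z'⁻¹ = c * d → A' ⊆ Ch P R g i v ty m z' := by
      intro z' c hc d hd hz' j hj
      obtain ⟨hjA, a, ha, b, hb, hab⟩ := mem_filter.1 hj
      rw [mem_Ch]
      refine ⟨mem_range.1 (mem_filter.1 hjA).1, (mem_filter.1 hjA).2, ?_⟩
      have : st g v ty j * z'⁻¹ = a * b * c * d := by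
        calc st g v ty j * z'⁻¹ = (st g v ty j * z⁻¹) * (z * z'⁻¹) := by group
          _ = a * b * c * d := by rw [hab, hz']; group
      rw [this]
      exact hS.mul4 a ha b hb c hc d hd
    have hPn : ∀ z' : G, ∀ c ∈ N, ∀ d ∈ N, z * z'⁻¹ = c * d →
        P.filter (fun q => q.1 * z⁻¹ ∈ N) ⊆ nearP P R z' := by
      intro z' c hc d hd hz' q hq
      rw [mem_filter] at hq
      rw [mem_nearP]
      refine ⟨hq.1, ?_⟩
      have : q.1 * z'⁻¹ = (q.1 * z⁻¹) * c * d * 1 := by
        calc q.1 * z'⁻¹ = (q.1 * z⁻¹) * (z * z'⁻¹) := by group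
          _ = (q.1 * z⁻¹) * c * d * 1 := by rw [hz']; group
      rw [this]
      exact hS.mul4 _ hq.2 c hc d hd 1 hS.one_N
    rcases B'.eq_empty_or_nonempty with hB' | ⟨l, hlB⟩
    · rw [hB', sum_empty, add_zero]
      refine (safe_w hS hE hP (i := i) z).mono (add_le_add (cnt_mono ?_) ?_)
      · exact hPn z 1 hS.one_N 1 hS.one_N (by group)
      · exact sum_le_sum_of_subset (hA' z 1 hS.one_N 1 hS.one_N (by group))
    · obtain ⟨hlB1, a, ha, b, hb, hab⟩ := mem_filter.1 hlB
      have hlm : l < m := mem_range.1 (mem_filter.1 hlB1).1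
      have hlp : ¬ push P R g i v ty l := (mem_filter.1 hlB1).2
      have hB1 : B' = {l} := by
        rw [eq_singleton_iff_unique_mem]
        refine ⟨hlB, ?_⟩
        intro l' hl'
        obtain ⟨hlB1', a', ha', b', hb', hab'⟩ := mem_filter.1 hl'
        have hR1 : a' * b' ∈ R := by
          have := hS.mul4 a' ha' b' hb' 1 hS.one_N 1 hS.one_N
          simpa using this
        have hR2 : (a * b)⁻¹ ∈ R := by
          apply hS.inv_R
          have := hS.mul4 a ha b hb 1 hS.one_N 1 hS.one_N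
          simpa using this
        refine ends_eq hS hE (mem_range.1 (mem_filter.1 hlB1').1) hlm hR1 hR2 ?_
        rw [← hab', ← hab]; group
      rw [hB1, sum_singleton]
      have hz' : z * (v l)⁻¹ = b⁻¹ * a⁻¹ := by
        rw [← mul_inv_rev, ← hab]; group
      have hsafe := (push_iff hS hE hlm (P := P) (i := i)).not.1 hlp
      rw [not_not] at hsafe
      refine hsafe.mono (add_le_add (add_le_add (cnt_mono ?_) ?_) le_rfl)
      · exact hPn _ b⁻¹ (hS.inv_N b hb) a⁻¹ (hS.inv_N a ha) hz'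
      · exact sum_le_sum_of_subset (hA' _ b⁻¹ (hS.inv_N b hb) a⁻¹ (hS.inv_N a ha) hz')
  · intro l hl
    by_cases hp : push P R g i v ty l
    · have hsub : ps l ⊆ P ∪ A.biUnion ps ∪ B.biUnion tk := by
        have hlA : l ∈ A := mem_filter.2 ⟨mem_range.2 hl, hp⟩
        refine (subset_biUnion_of_mem ps hlA).trans ?_
        exact subset_union_right.trans subset_union_left
      by_cases ht : ty l
      · left
        apply hsub
        simp only [ps, st, if_pos ht, mem_singleton]
      · right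
        intro f hf
        apply hsub
        simp only [ps, st, if_neg ht, mem_image]
        exact ⟨_, ⟨f, hf, rfl⟩, rfl⟩
    · have hsub : tk l ⊆ P ∪ A.biUnion ps ∪ B.biUnion tk := by
        have hlB : l ∈ B := mem_filter.2 ⟨mem_range.2 hl, hp⟩
        refine (subset_biUnion_of_mem tk hlB).trans ?_
        exact subset_union_right
      by_cases ht : ty l
      · right
        intro f hf
        apply hsub
        simp only [tk, if_pos ht, mem_image]
        exact ⟨_, ⟨f, hf, rfl⟩, by rw [mul_inv_cancel_left]⟩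
      · left
        apply hsub
        simp only [tk, if_neg ht, mem_singleton]

end ball

end Pool.Agent.Helper78.PP
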