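import Mathlib
import Pool.Agent.Helper78.PP.Level

/-!
Leaf removal: a finite set of links has a good list of lower ends.
-/

namespace Pool.Agent.Helper78.PP

open Finset

variable {G : Type*} [Group G]

/-- the two ends of the link of `a` -/
def en (g a : G) (t : Bool) : G := if t then g * a else a

lemma en_not (g a : G) (t : Bool) : en g a (!t) = (if (!t) then g else g⁻¹) * en g a t := by
  cases t <;> simp [en]

/-- data of a step -/
structure StepData (M : Finset G) (g : G) (σ : Type*) where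
  lk : σ → G
  sd : σ → Bool
  nx : σ → σ
  ne : ∀ s, lk (nx s) ≠ lk s
  mem : ∀ s, en g (lk (nx s)) (sd (nx s)) * (en g (lk s) (!(sd s)))⁻¹ ∈ M

section walk

variable {M : Finset G} {g : G} {σ : Type*} (W : StepData M g σ)

/-- coefficient of a step -/
def StepData.co (s : σ) : G := en g (W.lk (W.nx s)) (W.sd (W.nx s)) * (en g (W.lk s) (!(W.sd s)))⁻¹

/-- position -/
def StepData.pos (s : σ) : G := en g (W.lk s) (W.sd s)

lemma StepData.step (s : σ) : W.pos (W.nx s) =
    W.co s * (if !(W.sd s) then g else g⁻¹) * W.pos s := by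
  unfold StepData.pos StepData.co
  rw [mul_assoc, ← en_not]
  group

/-- the word of `n` steps, newest first -/
def StepData.word (s : σ) : ℕ → List (Bool × G)
  | 0 => []
  | n + 1 => (!(W.sd (W.nx^[n] s)), W.co (W.nx^[n] s)) :: StepData.word s n

lemma StepData.word_prod (s : σ) (n : ℕ) :
    ((W.word s n).map fun p => p.2 * (if p.1 then g else g⁻¹)).prod * W.pos s =
      W.pos (W.nx^[n] s) := by
  induction n with
  | zero => simp [StepData.word]
  | succ n ih =>
    rw [StepData.word, List.map_cons, List.prod_cons, mul_assoc, ih, Function.iterate_succ_apply',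
      W.step]

lemma StepData.word_mem (s : σ) (n : ℕ) : ∀ p ∈ W.word s n, p.2 ∈ M := by
  induction n with
  | zero => simp [StepData.word]
  | succ n ih =>
    intro p hp
    rw [StepData.word, List.mem_cons] at hp
    rcases hp with rfl | hp
    · exact W.mem _
    · exact ih p hp

lemma StepData.co_one {s : σ} (h : W.co s = 1) : W.sd (W.nx s) = W.sd s := by
  unfold StepData.co at h
  rw [mul_inv_eq_one] at h
  have hne := W.ne s
  cases h1 : W.sd (W.nx s) <;> cases h2 : W.sd s <;> simp [h1, h2, en] at h ⊢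
  · exact hne h
  · exact hne h

lemma StepData.word_chain (s : σ) (n : ℕ) :
    (W.word s n).IsChain (fun p q => q.2 = 1 → p.1 = q.1) := by
  induction n with
  | zero => simp [StepData.word]
  | succ n ih =>
    cases n with
    | zero => simp [StepData.word]
    | succ n =>
      rw [StepData.word, StepData.word, List.isChain_cons_cons]
      rw [StepData.word] at ih
      refine ⟨?_, ih⟩
      intro h
      simp only at h ⊢
      rw [Function.iterate_succ_apply', W.co_one h]

include W in
lemma StepData.false [Finite σ] [Nonempty σ] (hg : FreeFor M g) : False := by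
  obtain ⟨s⟩ := ‹Nonempty σ›
  obtain ⟨j, k, hjk, he⟩ := Finite.exists_ne_map_eq_of_infinite (fun n : ℕ => W.nx^[n] s)
  replace he : W.nx^[j] s = W.nx^[k] s := he
  wlog hlt : j < k generalizing j k
  · exact this k j hjk.symm he.symm (lt_of_le_of_ne (not_lt.1 hlt) hjk.symm)
  obtain ⟨n, rfl⟩ := Nat.exists_eq_add_of_lt hlt
  have h1 : W.nx^[n + 1] (W.nx^[j] s) = W.nx^[j] s := by
    rw [← Function.iterate_add_apply, show n + 1 + j = j + n + 1 by ring, ← he]
  have h2 := W.word_prod (W.nx^[j] s) (n + 1)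
  rw [h1] at h2
  refine hg (W.word (W.nx^[j] s) (n + 1)) (by simp [StepData.word]) (W.word_mem _ _)
    (W.word_chain _ _) ?_
  exact mul_eq_right.1 h2

end walk

lemma not_mem_self {M : Finset G} {g : G} (hg : FreeFor M g) : g ∉ M ∧ g⁻¹ ∉ M := by
  constructor
  · intro h
    exact hg [(false, g)] (by simp) (by simpa using h) (by simp) (by simp)
  · intro h
    exact hg [(true, g⁻¹)] (by simp) (by simpa using h) (by simp) (by simp)

/-- existence of a leaf -/
lemma exists_leaf {M : Finset G} {g : G} (hg : FreeFor M g) {Λ : Finset G} (hΛ : Λ.Nonempty) :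
    ∃ a ∈ Λ, ∃ t : Bool, ∀ b ∈ Λ, b ≠ a → ∀ s : Bool, en g b s * (en g a t)⁻¹ ∉ M := by
  by_contra hcon
  push Not at hcon
  have h : ∀ x : Λ × Bool, ∃ y : Λ × Bool, (y.1 : G) ≠ x.1 ∧
      en g y.1 y.2 * (en g x.1 (!x.2))⁻¹ ∈ M := by
    intro x
    obtain ⟨b, hb, hne, s, hs⟩ := hcon x.1 x.1.2 (!x.2)
    exact ⟨(⟨b, hb⟩, s), hne, hs⟩
  choose f hf1 hf2 using h
  let W : StepData M g (Λ × Bool) :=
    { lk := fun x => x.1, sd := fun x => x.2, nx := f, ne := hf1, mem := hf2 }
  obtain ⟨a, ha⟩ := hΛ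
  have : Nonempty (Λ × Bool) := ⟨(⟨a, ha⟩, true)⟩
  exact W.false hg

/-- the list of lower ends -/
theorem exists_ends {M : Finset G} {g : G} (hg : FreeFor M g) : ∀ (n : ℕ) (Λ : Finset G),
    Λ.card = n → ∃ (v : ℕ → G) (ty : ℕ → Bool), Ends M g n v ty ∧
      (∀ a ∈ Λ, ∃ l < n, (if ty l then g⁻¹ * v l else v l) = a) ∧
      (∀ l < n, ∃ a ∈ Λ, v l = en g a (ty l)) := by
  classical
  intro n
  induction n with
  | zero =>
    intro Λ hΛ
    rw [card_eq_zero] at hΛ
    subst hΛ
    exact ⟨fun _ => 1, fun _ => true, ⟨by intro p l _ h; omega, by intro p l _ h; omega⟩,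
      by simp, by intro l h; omega⟩
  | succ n ih =>
    intro Λ hΛ
    have hne : Λ.Nonempty := by rw [← card_pos]; omega
    obtain ⟨a, ha, t, hleaf⟩ := exists_leaf hg hne
    obtain ⟨v, ty, hE, hcov, hsub⟩ := ih (Λ.erase a) (by rw [card_erase_of_mem ha]; omega)
    let v' : ℕ → G := fun l => if l = 0 then en g a t else v (l - 1)
    let ty' : ℕ → Bool := fun l => if l = 0 then t else ty (l - 1)
    have hv0 : v' 0 = en g a t := rfl
    have ht0 : ty' 0 = t := rfl
    have hvs : ∀ l, v' (l + 1) = v l := fun l => rfl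
    have hts : ∀ l, ty' (l + 1) = ty l := fun l => rfl
    have hsts : ∀ l, st g v' ty' (l + 1) = st g v ty l := fun l => rfl
    have hst : ∀ l < n, ∃ b ∈ Λ, b ≠ a ∧ v l = en g b (ty l) ∧ st g v ty l = en g b (!(ty l)) := by
      intro l hl
      obtain ⟨b, hb, hvb⟩ := hsub l hl
      refine ⟨b, mem_of_mem_erase hb, ne_of_mem_erase hb, hvb, ?_⟩
      unfold st
      rw [hvb]
      cases ty l <;> simp [en]
    refine ⟨v', ty', ⟨?_, ?_⟩, ?_, ?_⟩
    · intro p l hpl hl
      obtain ⟨l', rfl⟩ : ∃ l', l = l' + 1 := ⟨l - 1, by omega⟩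
      rcases Nat.eq_zero_or_pos p with rfl | hp
      · rw [hv0, hvs]
        obtain ⟨b, hb, hba, hvb, _⟩ := hst l' (by omega)
        rw [hvb]
        exact hleaf b hb hba _
      · obtain ⟨p', rfl⟩ : ∃ p', p = p' + 1 := ⟨p - 1, by omega⟩
        rw [hvs, hvs]
        exact hE.sep p' l' (by omega) (by omega)
    · intro p l hpl hl
      rcases Nat.eq_zero_or_pos p with rfl | hp
      · rcases Nat.eq_zero_or_pos l with rfl | hl0
        · have h1 := not_mem_self hg
          unfold st
          rw [ht0, hv0]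
          split_ifs
          · rw [mul_assoc, mul_inv_cancel, mul_one]; exact h1.2
          · rw [mul_assoc, mul_inv_cancel, mul_one]; exact h1.1
        · obtain ⟨l', rfl⟩ : ∃ l', l = l' + 1 := ⟨l - 1, by omega⟩
          rw [hsts, hv0]
          obtain ⟨b, hb, hba, _, hsb⟩ := hst l' (by omega)
          rw [hsb]
          exact hleaf b hb hba _
      · obtain ⟨p', rfl⟩ : ∃ p', p = p' + 1 := ⟨p - 1, by omega⟩
        obtain ⟨l', rfl⟩ : ∃ l', l = l' + 1 := ⟨l - 1, by omega⟩
        rw [hsts, hvs]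
        exact hE.sepS p' l' (by omega) (by omega)
    · intro b hb
      by_cases hba : b = a
      · refine ⟨0, by omega, ?_⟩
        rw [ht0, hv0, hba]
        unfold en
        cases t <;> simp
      · obtain ⟨l, hl, hl2⟩ := hcov b (mem_erase.2 ⟨hba, hb⟩)
        exact ⟨l + 1, by omega, hl2⟩
    · intro l hl
      rcases Nat.eq_zero_or_pos l with rfl | hl0
      · exact ⟨a, ha, rfl⟩
      · obtain ⟨l', rfl⟩ : ∃ l', l = l' + 1 := ⟨l - 1, by omega⟩
        obtain ⟨b, hb, hvb⟩ := hsub l' (by omega)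
        exact ⟨b, mem_of_mem_erase hb, hvb⟩

end Pool.Agent.Helper78.PP
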