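import Mathlib
import Pool.Agent.Helper78.PP.Leaf

/-!
Four-cell colourings of countable groups satisfying the word condition.
-/

namespace Pool.Agent.Helper78.PP

open Finset

variable {G : Type*} [Group G]

open Classical in
/-- all balls are safe -/
def SafeAt (N : Finset G) (P : Finset (G × Fin 4)) : Prop :=
  ∀ z, Safe (cnt (P.filter (fun q => q.1 * z⁻¹ ∈ N)))

lemma SafeAt.mono {N N' : Finset G} {P : Finset (G × Fin 4)} (h : SafeAt N' P) (hN : N ⊆ N') :
    SafeAt N P := by
  classical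
  intro z
  refine (h z).mono (cnt_mono ?_)
  intro q hq
  rw [mem_filter] at hq ⊢
  exact ⟨hq.1, hN hq.2⟩

open Pointwise in
/-- existence of scales -/
lemma exists_scales [DecidableEq G] (N0 F : Finset G) : ∃ N R M : Finset G, Scales N R M ∧
    N0 ⊆ N ∧ F ⊆ N := by
  let N1 : Finset G := insert 1 (N0 ∪ F)
  let N : Finset G := N1 ∪ N1⁻¹
  have hN1 : (1 : G) ∈ N := mem_union_left _ (mem_insert_self _ _)
  have hNi : ∀ x ∈ N, x⁻¹ ∈ N := by
    intro x hx
    rcases mem_union.1 hx with h | h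
    · exact mem_union_right _ (inv_mem_inv h)
    · exact mem_union_left _ (by simpa using h)
  have hRi : ∀ x ∈ N * N * N * N, x⁻¹ ∈ N * N * N * N := by
    intro x hx
    obtain ⟨y, hy, d, hd, rfl⟩ := mem_mul.1 hx
    obtain ⟨y', hy', c, hc, rfl⟩ := mem_mul.1 hy
    obtain ⟨a, ha, b, hb, rfl⟩ := mem_mul.1 hy'
    have : (a * b * c * d)⁻¹ = d⁻¹ * c⁻¹ * b⁻¹ * a⁻¹ := by group
    rw [this]
    exact mul_mem_mul (mul_mem_mul (mul_mem_mul (hNi d hd) (hNi c hc)) (hNi b hb)) (hNi a ha)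
  refine ⟨N, N * N * N * N, (N * N * N * N) * (N * N * N * N) * (N * N * N * N),
    ⟨hN1, hNi, ?_, hRi, ?_, ?_⟩, ?_, ?_⟩
  · have := mul_mem_mul (mul_mem_mul (mul_mem_mul hN1 hN1) hN1) hN1
    simpa using this
  · intro a ha b hb c hc d hd
    exact mul_mem_mul (mul_mem_mul (mul_mem_mul ha hb) hc) hd
  · intro a ha b hb c hc
    exact mul_mem_mul (mul_mem_mul ha hb) hc
  · exact subset_union_left.trans ((subset_insert _ _).trans subset_union_left)
  · exact subset_union_right.trans ((subset_insert _ _).trans subset_union_left)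

/-- one level -/
theorem level (h : HasFree G) (N0 F : Finset G) (hF : F.card ≤ 4) (i : Fin 4) :
    ∃ (g : G) (N' : Finset G), ∀ (Λ : Finset G) (P : Finset (G × Fin 4)), SafeAt N' P →
      ∃ P', P ⊆ P' ∧ SafeAt N0 P' ∧ ∀ a ∈ Λ, (a, i) ∈ P' ∨ ∀ f ∈ F, (f * (g * a), i) ∈ P' := by
  classical
  obtain ⟨N, R, M, hS, hN0, hFN⟩ := exists_scales N0 F
  obtain ⟨g, hg⟩ := h M
  refine ⟨g, Bs R g 13, ?_⟩
  intro Λ P hP
  obtain ⟨v, ty, hE, hcov, _⟩ := exists_ends hg Λ.card Λ rfl
  obtain ⟨P', h1, h2, h3⟩ := level_ends hS hE (P := P) (i := i) (by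
    intro z
    convert hP z) hF hFN
  refine ⟨P', h1, SafeAt.mono (N' := N) (by
    intro z
    convert h2 z) hN0, ?_⟩
  intro a ha
  obtain ⟨l, hl, hla⟩ := hcov a ha
  have := h3 l hl
  rwa [hla] at this

section main

variable (h : HasFree G) (I : ℕ → Fin 4) (T : ℕ → Finset G) (hT : ∀ k, (T k).card ≤ 4)

/-- scales and elements -/
noncomputable def NN : ℕ → Finset G
  | 0 => {1}
  | k + 1 => (level h (NN k) (T k) (hT k) (I k)).choose_spec.choose

/-- the elements -/
noncomputable def gg (k : ℕ) : G := (level h (NN h I T hT k) (T k) (hT k) (I k)).choose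

lemma level_spec (k : ℕ) (Λ : Finset G) (P : Finset (G × Fin 4))
    (hP : SafeAt (NN h I T hT (k + 1)) P) :
    ∃ P', P ⊆ P' ∧ SafeAt (NN h I T hT k) P' ∧
      ∀ a ∈ Λ, (a, I k) ∈ P' ∨ ∀ f ∈ T k, (f * (gg h I T hT k * a), I k) ∈ P' := by
  rw [NN] at hP
  exact (level h (NN h I T hT k) (T k) (hT k) (I k)).choose_spec.choose_spec Λ P hP

lemma all_levels (Λ : Finset G) : ∀ (m : ℕ) (P : Finset (G × Fin 4)),
    SafeAt (NN h I T hT m) P → ∃ P', P ⊆ P' ∧ SafeAt (NN h I T hT 0) P' ∧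
      ∀ k < m, ∀ a ∈ Λ, (a, I k) ∈ P' ∨ ∀ f ∈ T k, (f * (gg h I T hT k * a), I k) ∈ P' := by
  intro m
  induction m with
  | zero => exact fun P hP => ⟨P, subset_rfl, hP, by simp⟩
  | succ m ih =>
    intro P hP
    obtain ⟨P1, h1, h2, h3⟩ := level_spec h I T hT m Λ P hP
    obtain ⟨P', h4, h5, h6⟩ := ih P1 h2
    refine ⟨P', h1.trans h4, h5, ?_⟩
    intro k hk a ha
    rcases Nat.lt_succ_iff_lt_or_eq.1 hk with hk | rfl
    · exact h6 k hk a ha
    · rcases h3 a ha with h | h
      · exact Or.inl (h4 h)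
      · exact Or.inr (fun f hf => h4 (h f hf))

/-- validity of a colouring -/
def Valid (g : ℕ → G) (m : ℕ) (Λ : Finset G) (c : G → Fin 4) : Prop :=
  ∀ k < m, ∀ a ∈ Λ, c a = I k → ∀ f ∈ T k, c (f * (g k * a)) ≠ I k

lemma exists_valid (m : ℕ) (Λ : Finset G) : ∃ c, Valid I T (gg h I T hT) m Λ c := by
  classical
  obtain ⟨P, _, h0, h1⟩ := all_levels h I T hT Λ m ∅ (by
    intro z
    rw [filter_empty, cnt_empty]
    exact safe_zero)
  have hc : ∀ z : G, ∃ j : Fin 4, (z, j) ∉ P := by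
    intro z
    by_contra hcon
    push Not at hcon
    refine not_safe_one (fun j => ?_) (h0 z)
    refine card_pos.2 ⟨(z, j), ?_⟩
    rw [mem_filter, mem_filter]
    refine ⟨⟨hcon j, ?_⟩, rfl⟩
    simp [NN]
  choose c hc using hc
  refine ⟨c, ?_⟩
  intro k hk a ha hca f hf hcf
  rcases h1 k hk a ha with h2 | h2
  · apply hc a; rw [hca]; exact h2
  · apply hc (f * (gg h I T hT k * a)); rw [hcf]; exact h2 f hf

lemma exists_valid_all : ∃ c : G → Fin 4, ∀ k a, c a = I k →
    ∀ f ∈ T k, c (f * (gg h I T hT k * a)) ≠ I k := by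
  have hcl : ∀ x : ℕ × Finset G, IsClosed {c : G → Fin 4 | Valid I T (gg h I T hT) x.1 x.2 c} := by
    intro x
    have : {c : G → Fin 4 | Valid I T (gg h I T hT) x.1 x.2 c} = ⋂ k : {k // k < x.1},
        ⋂ a : {a // a ∈ x.2}, ⋂ s : {s // s ∈ T k},
        {c | c a = I k → c (s * (gg h I T hT k * a)) ≠ I k} := by
      ext c
      simp only [Valid, Set.mem_ofPred_eq, Set.mem_iInter, Subtype.forall]
      exact ⟨fun h j hj p hp s hs hcp => h j hj p hp hcp s hs,
        fun h j hj p hp hcp s hs => h j hj p hp s hs hcp⟩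
    rw [this]
    refine isClosed_iInter fun k => isClosed_iInter fun a => isClosed_iInter fun s => ?_
    have : {c : G → Fin 4 | c a = I k → c (s * (gg h I T hT k * a)) ≠ I k} =
        (fun c : G → Fin 4 => (c a, c (s * (gg h I T hT k * a)))) ⁻¹'
          {q : Fin 4 × Fin 4 | q.1 = I k → q.2 ≠ I k} := rfl
    rw [this]
    exact (isClosed_discrete _).preimage (by fun_prop)
  have hne := IsCompact.nonempty_iInter_of_directed_nonempty_isCompact_isClosed
    (fun x : ℕ × Finset G => {c : G → Fin 4 | Valid I T (gg h I T hT) x.1 x.2 c}) ?_ ?_ ?_ hcl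
  · obtain ⟨c, hc⟩ := hne
    refine ⟨c, fun k a hca f hf => ?_⟩
    have := Set.mem_iInter.1 hc (k + 1, {a})
    exact this k (Nat.lt_succ_self k) a (mem_singleton_self a) hca f hf
  · classical
    intro x y
    refine ⟨(max x.1 y.1, x.2 ∪ y.2), ?_, ?_⟩
    · intro c hc k hk a ha
      exact hc k (hk.trans_le (le_max_left _ _)) a (mem_union_left _ ha)
    · intro c hc k hk a ha
      exact hc k (hk.trans_le (le_max_right _ _)) a (mem_union_right _ ha)
  · intro x
    exact exists_valid h I T hT x.1 x.2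
  · intro x
    exact (hcl x).isCompact

end main

/-- A countable group satisfying the word condition has a colouring with four colours such that
for every colour `i` and every set `S` with at most four elements there is `x` with
`s x A_i ∩ A_i = ∅` for all `s ∈ S`, where `A_i` is the colour class of `i`. -/
theorem exists_colouring (G : Type*) [Group G] [Countable G] (h : HasFree G) :
    ∃ c : G → Fin 4, ∀ (i : Fin 4) (S : Finset G), S.card ≤ 4 →
      ∃ x : G, ∀ p, c p = i → ∀ s ∈ S, c (s * (x * p)) ≠ i := by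
  classical
  obtain ⟨E, hE⟩ : ∃ E : ℕ → Fin 4 × Finset G, Function.Surjective E :=
    exists_surjective_nat _
  let T : ℕ → Finset G := fun k => if (E k).2.card ≤ 4 then (E k).2 else ∅
  have hT : ∀ k, (T k).card ≤ 4 := by
    intro k
    simp only [T]
    split_ifs with h
    · exact h
    · simp
  obtain ⟨c, hc⟩ := exists_valid_all h (fun k => (E k).1) T hT
  refine ⟨c, fun i S hS => ?_⟩
  obtain ⟨k, hk⟩ := hE (i, S)
  have hTk : T k = S := by
    simp only [T, hk]
    rw [if_pos hS]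
  refine ⟨gg h (fun k => (E k).1) T hT k, fun p hp s hs => ?_⟩
  have h1 := hc k p
  simp only [hk, hTk] at h1
  exact h1 hp s hs

end Pool.Agent.Helper78.PP
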